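import Mathlib
import Pool.Agent.J4.H38.GD.Defs
import Pool.Agent.J4.H31.DV.Rav1

/-! Project GD (helper38), piece AV1: averages over all shifts `t ≤ H` of the excess of the local factors. -/

set_option autoImplicit false

namespace Pool.Agent.J4.H46.GD

open Finset Filter
open Pool.Agent.Y822
open Pool.Agent.H373R2.T7 (pz Vz mem_pz)
open Pool.Agent.J4.H31.DV (count_int prod_sq prod_small)

lemma av1_sum (C : ℝ) (hC : 0 ≤ C) (a : ℤ) (w H : ℕ) :
    ∑ t ∈ Icc 1 H, (∏ p ∈ (pz H).filter (fun p => w < p ∧ (p : ℤ) ∣ (t : ℤ) + a), (1 + C / (p : ℝ)) - 1) ≤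
      H * (∏ p ∈ (pz H).filter (fun p => w < p), (1 + C / (p : ℝ) ^ 2) - 1) +
        ∏ p ∈ pz H, (1 + C / (p : ℝ)) := by
  classical
  obtain ⟨S, hS⟩ : ∃ S, S = (pz H).filter (fun p => w < p) := ⟨_, rfl⟩
  have hSp : ∀ p ∈ S, p.Prime ∧ w < p := fun p hp => by
    rw [hS, mem_filter, mem_pz] at hp
    exact ⟨hp.1.2, hp.2⟩
  rw [← hS]
  have h1 : ∀ t ∈ Icc 1 H, ∏ p ∈ (pz H).filter (fun p => w < p ∧ (p : ℤ) ∣ (t : ℤ) + a), (1 + C / (p : ℝ)) - 1 =
      ∑ P ∈ S.powerset.erase ∅, (∏ p ∈ P, C / (p : ℝ)) * (if (∀ p ∈ P, (p : ℤ) ∣ (t : ℤ) + a) then 1 else 0) := by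
    intro t _
    have e1 : (pz H).filter (fun p => w < p ∧ (p : ℤ) ∣ (t : ℤ) + a) = S.filter (fun p : ℕ => (p : ℤ) ∣ (t : ℤ) + a) := by
      rw [hS, filter_filter]
    rw [e1, prod_one_add]
    have h2 : (S.filter (fun p : ℕ => (p : ℤ) ∣ (t : ℤ) + a)).powerset =
        S.powerset.filter (fun P => ∀ p ∈ P, ((p : ℕ) : ℤ) ∣ (t : ℤ) + a) := by
      ext P
      simp only [mem_powerset, mem_filter, subset_iff]
      constructor
      · exact fun h => ⟨fun p hp => (h hp).1, fun p hp => (h hp).2⟩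
      · exact fun h p hp => ⟨h.1 hp, h.2 p hp⟩
    rw [h2, sum_filter]
    have h3 : (∑ P ∈ S.powerset, if (∀ p ∈ P, ((p : ℕ) : ℤ) ∣ (t : ℤ) + a) then ∏ p ∈ P, C / (p : ℝ) else 0) =
        ∑ P ∈ S.powerset, (∏ p ∈ P, C / (p : ℝ)) * (if (∀ p ∈ P, (p : ℤ) ∣ (t : ℤ) + a) then 1 else 0) := by
      refine sum_congr rfl fun P _ => ?_
      split_ifs <;> simp
    rw [h3, ← add_sum_erase S.powerset _ (empty_mem_powerset S)]
    simp
  rw [sum_congr rfl h1, sum_comm]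
  have h3 : ∀ P ∈ S.powerset.erase ∅, ∑ t ∈ Icc 1 H,
      (∏ p ∈ P, C / (p : ℝ)) * (if (∀ p ∈ P, (p : ℤ) ∣ (t : ℤ) + a) then (1 : ℝ) else 0) ≤
      H * ∏ p ∈ P, (C / (p : ℝ) ^ 2) + ∏ p ∈ P, (C / (p : ℝ)) := by
    intro P hP
    rw [← mul_sum]
    have hPp : ∀ p ∈ P, p.Prime ∧ w < p := fun p hp => hSp p (mem_powerset.1 (mem_of_mem_erase hP) hp)
    have hPpos : 0 < ∏ p ∈ P, p := prod_pos fun p hp => (hPp p hp).1.pos
    have h4 : ∑ t ∈ Icc 1 H, (if (∀ p ∈ P, (p : ℤ) ∣ (t : ℤ) + a) then (1 : ℝ) else 0) ≤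
        H / ((∏ p ∈ P, p : ℕ) : ℝ) + 1 := by
      refine le_trans ?_ (count_int a H (∏ p ∈ P, p) hPpos)
      refine sum_le_sum fun t ht => ?_
      by_cases h : ∀ p ∈ P, (p : ℤ) ∣ (t : ℤ) + a
      · have h5 : ((∏ p ∈ P, p : ℕ) : ℤ) ∣ (t : ℤ) + a := by
          rw [Int.natCast_dvd]
          refine Finset.prod_primes_dvd _ (fun p hp => (hPp p hp).1.prime) fun p hp => ?_
          exact Int.natCast_dvd.1 (h p hp)
        rw [if_pos h, if_pos h5]
      · rw [if_neg h]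
        split_ifs <;> norm_num
    have h6 : 0 ≤ ∏ p ∈ P, C / (p : ℝ) := prod_nonneg fun p _ => by positivity
    have h7 : (∏ p ∈ P, C / (p : ℝ)) * (H / ((∏ p ∈ P, p : ℕ) : ℝ) + 1) =
        H * ∏ p ∈ P, (C / (p : ℝ) ^ 2) + ∏ p ∈ P, (C / (p : ℝ)) := by
      have h8 : ∏ p ∈ P, (C / (p : ℝ) ^ 2) = (∏ p ∈ P, C / (p : ℝ)) / ((∏ p ∈ P, p : ℕ) : ℝ) := by
        push_cast
        rw [← prod_div_distrib]
        refine prod_congr rfl fun p _ => ?_
        rw [sq, div_div]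
      rw [h8]
      have h9 : ((∏ p ∈ P, p : ℕ) : ℝ) ≠ 0 := by exact_mod_cast hPpos.ne'
      field_simp
    rw [← h7]
    exact mul_le_mul_of_nonneg_left h4 h6
  refine (sum_le_sum h3).trans ?_
  rw [sum_add_distrib, ← mul_sum]
  have h4 : ∑ P ∈ S.powerset.erase ∅, ∏ p ∈ P, (C / (p : ℝ) ^ 2) = ∏ p ∈ S, (1 + C / (p : ℝ) ^ 2) - 1 := by
    rw [prod_one_add, ← add_sum_erase S.powerset _ (empty_mem_powerset S)]
    simp
  have h5 : ∑ P ∈ S.powerset.erase ∅, ∏ p ∈ P, (C / (p : ℝ)) ≤ ∏ p ∈ pz H, (1 + C / (p : ℝ)) := by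
    have h6 : ∑ P ∈ S.powerset.erase ∅, ∏ p ∈ P, (C / (p : ℝ)) ≤ ∏ p ∈ S, (1 + C / (p : ℝ)) := by
      rw [prod_one_add]
      exact sum_le_sum_of_subset_of_nonneg (erase_subset _ _) fun P _ _ => prod_nonneg fun p _ => by positivity
    refine h6.trans ?_
    refine prod_le_prod_of_subset_of_one_le (by rw [hS]; exact filter_subset _ _) (fun p _ => by positivity)
      fun p _ _ => ?_
    have : 0 ≤ C / (p : ℝ) := by positivity
    linarith
  rw [h4]
  linarith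

/-- the primes `> H` contribute little -/
lemma av1_big (C : ℝ) (hC : 0 ≤ C) (w y N M H t : ℕ) (hH : 3 ≤ H) (hHN : H ≤ N) (hMN : M ≤ N) (hlog : Real.log N ≤ H)
    (ht1 : 1 ≤ t) (ht : t ≤ H) :
    ∏ p ∈ (pz y).filter (fun p => w < p ∧ p ∣ M + t), (1 + C / (p : ℝ)) ≤
      Real.exp (2 * C / Real.log H) *
        ∏ p ∈ (pz H).filter (fun p => w < p ∧ p ∣ M + t), (1 + C / (p : ℝ)) := by
  classical
  have hH0 : (0 : ℝ) < H := by exact_mod_cast (by omega : 0 < H)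
  have hN0 : (0 : ℝ) < N := by exact_mod_cast (by omega : 0 < N)
  have hH3 : (3 : ℝ) ≤ H := by exact_mod_cast hH
  have hlH : 1 ≤ Real.log H := by
    have h1 : Real.exp 1 ≤ H := le_trans (by have := Real.exp_one_lt_d9; linarith) hH3
    have := Real.log_le_log (Real.exp_pos 1) h1
    rwa [Real.log_exp] at this
  have hone : ∀ p : ℕ, (1 : ℝ) ≤ 1 + C / (p : ℝ) := fun p => by
    have : 0 ≤ C / (p : ℝ) := by positivity
    linarith
  have g2 : ∏ p ∈ (pz y).filter (fun p => w < p ∧ p ∣ M + t), (1 + C / (p : ℝ)) ≤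
      ∏ p ∈ (M + t).primeFactors.filter (fun p => w < p), (1 + C / (p : ℝ)) := by
    refine prod_le_prod_of_subset_of_one_le ?_ (fun p _ => by positivity) fun p _ _ => hone p
    intro p hp
    rw [mem_filter, mem_pz] at hp
    rw [mem_filter, Nat.mem_primeFactors]
    exact ⟨⟨hp.1.2, hp.2.2, by omega⟩, hp.2.1⟩
  refine g2.trans ?_
  rw [← prod_filter_mul_prod_filter_not _ (fun p => H < p)]
  refine mul_le_mul ?_ ?_ (prod_nonneg fun p _ => by positivity) (Real.exp_pos _).le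
  · have h1 : ∏ p ∈ ((M + t).primeFactors.filter (fun p => w < p)).filter (fun p => H < p), (1 + C / (p : ℝ)) ≤
        ∏ p ∈ (M + t).primeFactors.filter (fun p => H < p), (1 + C / (p : ℝ)) := by
      refine prod_le_prod_of_subset_of_one_le ?_ (fun p _ => by positivity) fun p _ _ => hone p
      intro p hp
      rw [mem_filter, mem_filter] at hp
      exact mem_filter.2 ⟨hp.1.1, hp.2⟩
    refine h1.trans ?_
    have h1 : ∏ p ∈ (M + t).primeFactors.filter (fun p => H < p), (1 + C / (p : ℝ)) ≤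
        ∏ _p ∈ (M + t).primeFactors.filter (fun p => H < p), Real.exp (C / (H : ℝ)) := by
      refine prod_le_prod (fun p _ => by positivity) fun p hp => ?_
      have h2 : (H : ℝ) ≤ p := by exact_mod_cast (mem_filter.1 hp).2.le
      have h3 : C / (p : ℝ) ≤ C / H := div_le_div_of_nonneg_left hC hH0 h2
      have h4 := Real.add_one_le_exp (C / (H : ℝ))
      linarith
    refine h1.trans ?_
    rw [prod_const, ← Real.exp_nat_mul, Real.exp_le_exp]
    have h2 := card_big_le H (M + t) (by omega) (by omega)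
    have h3 : (((M + t).primeFactors.filter (fun p => H < p)).card : ℝ) ≤ Nat.log H (M + t) := by
      exact_mod_cast h2
    have h4 : (Nat.log H (M + t) : ℝ) ≤ Real.logb H ((M + t : ℕ) : ℝ) := Real.natLog_le_logb _ _
    have h5 : Real.logb H ((M + t : ℕ) : ℝ) ≤ 2 * H / Real.log H := by
      unfold Real.logb
      refine div_le_div_of_nonneg_right ?_ (by linarith)
      have h6 : Real.log ((M + t : ℕ) : ℝ) ≤ Real.log N + Real.log 2 := by
        rw [← Real.log_mul hN0.ne' (by norm_num)]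
        refine Real.log_le_log (by exact_mod_cast (by omega : 0 < M + t)) ?_
        have : ((M + t : ℕ) : ℝ) ≤ ((N * 2 : ℕ) : ℝ) := by exact_mod_cast (by omega : M + t ≤ N * 2)
        push_cast at this ⊢
        exact this
      have h7 : Real.log 2 ≤ 1 := by
        have := Real.log_two_lt_d9
        linarith
      linarith
    calc _ ≤ (2 * (H : ℝ) / Real.log H) * (C / H) :=
          mul_le_mul_of_nonneg_right (h3.trans (h4.trans h5)) (by positivity)
      _ = 2 * C / Real.log H := by field_simp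
  · refine prod_le_prod_of_subset_of_one_le ?_ (fun p _ => by positivity) fun p _ _ => hone p
    intro p hp
    rw [mem_filter, mem_filter, Nat.mem_primeFactors] at hp
    rw [mem_filter, mem_pz]
    exact ⟨⟨not_lt.1 hp.2, hp.1.1.1⟩, hp.1.2, hp.1.1.2.1⟩

/-- **AV1** -/
theorem av1 (C : ℝ) (hC : 0 ≤ C) : ∃ (C' : ℝ) (w₀ : ℕ), 0 < C' ∧ 2 ≤ w₀ ∧ ∀ w : ℕ, w₀ ≤ w → ∀ᶠ N : ℕ in atTop,
    ∀ H y M : ℕ, Real.log N ≤ H → H ≤ N → M ≤ N →
    ∑ t ∈ Icc 1 H, (∏ p ∈ (pz y).filter (fun p => w < p ∧ p ∣ M + t), (1 + C / (p : ℝ)) - 1) ≤ C' / w * H ∧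
    ∀ s ∈ Icc 1 H, ∑ t ∈ (Icc 1 H).erase s,
      (∏ p ∈ (pz y).filter (fun p => w < p ∧ (p : ℤ) ∣ (s : ℤ) - t), (1 + C / (p : ℝ)) - 1) ≤ C' / w * H := by
  classical
  refine ⟨7 * (C + 1), 2 + ⌈C⌉₊, by linarith, by omega, fun w hw => ?_⟩
  have hwr1 : C ≤ w := (Nat.le_ceil _).trans (Nat.cast_le.2 (by omega))
  have hw0 : (0 : ℝ) < w := by exact_mod_cast (by omega : 0 < w)
  -- conditions on `H`
  obtain ⟨ζ, hζ⟩ : ∃ ζ, ζ = min 1 ((C + 1) / w) := ⟨_, rfl⟩
  have hζ0 : 0 < ζ := by rw [hζ]; exact lt_min one_pos (by positivity)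
  have hζ1 : ζ ≤ 1 := by rw [hζ]; exact min_le_left _ _
  have hζ2 : ζ ≤ (C + 1) / w := by rw [hζ]; exact min_le_right _ _
  have hexp : ∀ᶠ H : ℕ in atTop, Real.exp (2 * C / Real.log H) ≤ 1 + ζ := by
    have h1 : Tendsto (fun H : ℕ => Real.exp (2 * C / Real.log H)) atTop (nhds (Real.exp 0)) := by
      refine (Real.continuous_exp.tendsto 0).comp ?_
      exact Tendsto.div_atTop tendsto_const_nhds (Real.tendsto_log_atTop.comp tendsto_natCast_atTop_atTop)
    rw [Real.exp_zero] at h1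
    exact h1.eventually_le_const (by linarith)
  have hsm := prod_small C hC ((C + 1) / w) (by positivity)
  obtain ⟨H₀, hH₀⟩ := eventually_atTop.1 ((hexp.and hsm).and (eventually_ge_atTop 3))
  have hlogN : ∀ᶠ N : ℕ in atTop, (H₀ : ℝ) ≤ Real.log N :=
    (Real.tendsto_log_atTop.comp tendsto_natCast_atTop_atTop).eventually_ge_atTop _
  filter_upwards [hlogN] with N hN H y M hlog hHN hMN
  have hHH : H₀ ≤ H := by exact_mod_cast hN.trans hlog
  obtain ⟨⟨hE, hP⟩, hH3⟩ := hH₀ H hHH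
  have hH0 : (0 : ℝ) < H := by exact_mod_cast (by omega : 0 < H)
  have hone : ∀ p : ℕ, (1 : ℝ) ≤ 1 + C / (p : ℝ) := fun p => by
    have : 0 ≤ C / (p : ℝ) := by positivity
    linarith
  have hCw : C / w ≤ (C + 1) / w := div_le_div_of_nonneg_right (by linarith) hw0.le
  have hc0 : 0 ≤ (C + 1) / w := by positivity
  have hC' : 7 * (C + 1) / w = 7 * ((C + 1) / w) := by ring
  rw [hC']
  obtain ⟨κ, hκ⟩ : ∃ κ, κ = (C + 1) / (w : ℝ) := ⟨_, rfl⟩
  rw [← hκ] at hζ2 hP hCw hc0 ⊢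
  -- the main bound
  have hmain : ∀ a : ℤ,
      ∑ t ∈ Icc 1 H, (∏ p ∈ (pz H).filter (fun p => w < p ∧ (p : ℤ) ∣ (t : ℤ) + a), (1 + C / (p : ℝ)) - 1) ≤
        3 * κ * H := by
    intro a
    refine (av1_sum C hC a w H).trans ?_
    have h1 := prod_sq C hC w H (by omega) hwr1
    have h2 : (H : ℝ) * (∏ p ∈ (pz H).filter (fun p => w < p), (1 + C / (p : ℝ) ^ 2) - 1) ≤
        H * (2 * κ) := mul_le_mul_of_nonneg_left (h1.trans (by linarith)) hH0.le
    linarith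
  constructor
  · have h1 : ∀ t ∈ Icc 1 H, ∏ p ∈ (pz y).filter (fun p => w < p ∧ p ∣ M + t), (1 + C / (p : ℝ)) - 1 ≤
        2 * (∏ p ∈ (pz H).filter (fun p => w < p ∧ (p : ℤ) ∣ (t : ℤ) + M), (1 + C / (p : ℝ)) - 1) + κ := by
      intro t ht
      rw [mem_Icc] at ht
      have h2 := av1_big C hC w y N M H t hH3 hHN hMN hlog ht.1 ht.2
      have h3 : (pz H).filter (fun p => w < p ∧ (p : ℤ) ∣ (t : ℤ) + M) =
          (pz H).filter (fun p => w < p ∧ p ∣ M + t) := by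
        refine filter_congr fun p _ => ?_
        have : ((t : ℤ) + M) = ((M + t : ℕ) : ℤ) := by push_cast; ring
        rw [this, Int.natCast_dvd_natCast]
      rw [h3]
      obtain ⟨X, hX⟩ : ∃ X, X = ∏ p ∈ (pz H).filter (fun p => w < p ∧ p ∣ M + t), (1 + C / (p : ℝ)) := ⟨_, rfl⟩
      rw [← hX] at h2 ⊢
      have hX1 : 1 ≤ X := by
        rw [hX]
        calc (1 : ℝ) = ∏ _p ∈ (pz H).filter (fun p => w < p ∧ p ∣ M + t), (1 : ℝ) := by rw [prod_const_one]
          _ ≤ _ := prod_le_prod (fun _ _ => zero_le_one) fun p _ => hone p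
      have h4 : Real.exp (2 * C / Real.log H) * X ≤ (1 + ζ) * X := mul_le_mul_of_nonneg_right hE (by linarith)
      nlinarith [mul_nonneg (sub_nonneg.2 hζ1) (sub_nonneg.2 hX1)]
    refine (sum_le_sum h1).trans ?_
    rw [sum_add_distrib, ← mul_sum, sum_const, nsmul_eq_mul, Nat.card_Icc, Nat.add_sub_cancel]
    have h2 := hmain (M : ℤ)
    linarith
  · intro s hs
    have h2 := hmain (-(s : ℤ))
    have h3 : ∀ t ∈ (Icc 1 H).erase s,
        ∏ p ∈ (pz y).filter (fun p => w < p ∧ (p : ℤ) ∣ (s : ℤ) - t), (1 + C / (p : ℝ)) - 1 ≤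
        ∏ p ∈ (pz H).filter (fun p => w < p ∧ (p : ℤ) ∣ (t : ℤ) + -s), (1 + C / (p : ℝ)) - 1 := by
      intro t ht
      refine sub_le_sub_right ?_ 1
      refine prod_le_prod_of_subset_of_one_le ?_ (fun p _ => by positivity) fun p _ _ => hone p
      intro p hp
      rw [mem_filter, mem_pz] at hp
      rw [mem_filter, mem_pz]
      have htH := mem_Icc.1 (mem_of_mem_erase ht)
      have hsH := mem_Icc.1 hs
      have hne : s ≠ t := (ne_of_mem_erase ht).symm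
      have h4 : (p : ℤ) ∣ (t : ℤ) + -s := by
        have : (t : ℤ) + -s = -((s : ℤ) - t) := by ring
        rw [this]
        exact (dvd_neg).2 hp.2.2
      refine ⟨⟨?_, hp.1.2⟩, hp.2.1, h4⟩
      have h5 : (s : ℤ) - t ≠ 0 := by
        intro h
        exact hne (by exact_mod_cast (sub_eq_zero.1 h))
      have h6 := Int.le_of_dvd (abs_pos.2 h5) ((dvd_abs _ _).2 hp.2.2)
      have h7 : |(s : ℤ) - t| ≤ H := by
        rw [abs_le]
        constructor <;> omega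
      exact_mod_cast h6.trans h7
    refine (sum_le_sum h3).trans ?_
    refine le_trans (sum_le_sum_of_subset_of_nonneg (erase_subset _ _) fun t _ _ => ?_) (h2.trans ?_)
    · have : ∏ _p ∈ (pz H).filter (fun p => w < p ∧ (p : ℤ) ∣ (t : ℤ) + -s), (1 : ℝ) ≤
          ∏ p ∈ (pz H).filter (fun p => w < p ∧ (p : ℤ) ∣ (t : ℤ) + -s), (1 + C / (p : ℝ)) :=
        prod_le_prod (fun _ _ => zero_le_one) fun p _ => hone p
      rw [prod_const_one] at this
      linarith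
    · exact mul_le_mul_of_nonneg_right (by linarith) hH0.le

end Pool.Agent.J4.H46.GD
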