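import Mathlib
import Pool.Agent.J4.H38.GD.SDefs

/-! Project GD (helper38), second part SD, piece P4: the second moment. -/

set_option autoImplicit false

namespace Pool.Agent.J4.H46.GD

open Finset Filter
open Pool.Agent.Y822
open Pool.Agent.J4.H38.SR (VT)
open Pool.Agent.J4.H38.GD (AB tau)
open Pool.Agent.H373R2.T7 (pz Vz mem_pz)

/-- the second moment method -/
lemma p4_second {ι : Type} (D : Finset ι) (q : ι → ℝ) (m : ℝ) (hm : 0 ≤ m)
    (h1 : (D.card : ℝ) * m ≤ ∑ d ∈ D, q d) [DecidablePred fun d => 1 / 2 * m ≤ q d] :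
    ((D.card : ℝ) * m) ^ 2 / 4 ≤ ((D.filter (fun d => 1 / 2 * m ≤ q d)).card : ℝ) * ∑ d ∈ D, q d ^ 2 := by
  have h2 := sum_filter_add_sum_filter_not D (fun d => 1 / 2 * m ≤ q d) q
  have h3 : ∑ d ∈ D.filter (fun d => ¬ 1 / 2 * m ≤ q d), q d ≤ D.card * (1 / 2 * m) := by
    calc ∑ d ∈ D.filter (fun d => ¬ 1 / 2 * m ≤ q d), q d
        ≤ ∑ _d ∈ D.filter (fun d => ¬ 1 / 2 * m ≤ q d), 1 / 2 * m :=
          sum_le_sum fun d hd => (not_le.1 (mem_filter.1 hd).2).le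
      _ = ((D.filter (fun d => ¬ 1 / 2 * m ≤ q d)).card : ℝ) * (1 / 2 * m) := by rw [sum_const, nsmul_eq_mul]
      _ ≤ D.card * (1 / 2 * m) := by
          refine mul_le_mul_of_nonneg_right ?_ (by positivity)
          exact_mod_cast card_filter_le _ _
  have h4 : (D.card : ℝ) * m / 2 ≤ ∑ d ∈ D.filter (fun d => 1 / 2 * m ≤ q d), q d := by linarith
  have h5 : (∑ d ∈ D.filter (fun d => 1 / 2 * m ≤ q d), q d) ^ 2 ≤
      ((D.filter (fun d => 1 / 2 * m ≤ q d)).card : ℝ) * ∑ d ∈ D.filter (fun d => 1 / 2 * m ≤ q d), q d ^ 2 :=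
    sq_sum_le_card_mul_sum_sq
  have h6 : ∑ d ∈ D.filter (fun d => 1 / 2 * m ≤ q d), q d ^ 2 ≤ ∑ d ∈ D, q d ^ 2 :=
    sum_le_sum_of_subset_of_nonneg (filter_subset _ _) fun _ _ _ => sq_nonneg _
  calc ((D.card : ℝ) * m) ^ 2 / 4 = ((D.card : ℝ) * m / 2) ^ 2 := by ring
    _ ≤ (∑ d ∈ D.filter (fun d => 1 / 2 * m ≤ q d), q d) ^ 2 := pow_le_pow_left₀ (by positivity) h4 2
    _ ≤ _ := h5
    _ ≤ _ := mul_le_mul_of_nonneg_left h6 (Nat.cast_nonneg _)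

lemma p4_Vz (w : ℕ) : 0 < Vz w := by
  unfold Vz
  refine prod_pos fun p hp => ?_
  have hp2 : (2 : ℝ) ≤ p := by exact_mod_cast (mem_pz.1 hp).2.two_le
  have ht2 : 1 / (p : ℝ) ≤ 1 / 2 := one_div_le_one_div_of_le (by norm_num) hp2
  linarith

lemma p4_tau (z w : ℕ) (h : ℤ) : 1 ≤ tau z w h := by
  unfold tau
  calc (1 : ℝ) = ∏ _p ∈ (pz w).filter (fun p => z < p ∧ (p : ℤ) ∣ h), (1 : ℝ) := by rw [prod_const_one]
    _ ≤ _ := prod_le_prod (fun _ _ => zero_le_one) fun p _ => by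
      have : 0 ≤ 2 / (p : ℝ) := by positivity
      linarith

lemma p4_tau_neg (z w : ℕ) (h : ℤ) : tau z w (-h) = tau z w h := by
  unfold tau
  refine prod_congr (filter_congr fun p _ => ?_) fun _ _ => rfl
  rw [dvd_neg]

lemma p4_ro (w b H : ℕ) : ∑ t ∈ Icc 1 H, ro w (b + t) = ((AB w b H).card : ℝ) := by
  classical
  unfold AB
  rw [card_filter]
  push_cast
  refine sum_congr rfl fun t _ => ?_
  unfold ro
  have : Ro w (b + t) ↔ ∀ p ∈ pz w, ¬ p ∣ t + b := by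
    unfold Ro
    constructor
    · intro h p hp
      rw [add_comm]
      exact h p (mem_pz.1 hp).2 (mem_pz.1 hp).1
    · intro h p hp hpw
      rw [add_comm]
      exact h p (mem_pz.2 ⟨hpw, hp⟩)
  by_cases h : Ro w (b + t)
  · rw [if_pos h, if_pos (this.1 h)]
  · rw [if_neg h, if_neg fun h' => h (this.2 h')]

/-- the moment of order `k` from the one of order `k (n + 1)` -/
lemma p4_pow (P : Finset ℕ) (f : ℕ → ℝ) (hf : ∀ p, 0 ≤ f p) (k n : ℕ) (A : ℝ) (hA : A ≤ Real.exp n)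
    (hX : ∑ p ∈ P, f p ^ (k * (n + 1)) ≤ A * P.card) :
    ∑ p ∈ P, f p ^ k ≤ Real.exp 1 * P.card := by
  rcases Nat.eq_zero_or_pos P.card with h0 | hpos
  · rw [card_eq_zero.1 h0]
    simp
  have hc : (0 : ℝ) < P.card := by exact_mod_cast hpos
  have h1 := pow_sum_div_card_le_sum_pow (s := P) (f := fun p => f p ^ k) (fun p _ => pow_nonneg (hf p) k) n
  have h2 : ∑ p ∈ P, (f p ^ k) ^ (n + 1) = ∑ p ∈ P, f p ^ (k * (n + 1)) :=
    sum_congr rfl fun p _ => by rw [← pow_mul]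
  rw [h2, div_le_iff₀ (by positivity)] at h1
  have h3 : (∑ p ∈ P, f p ^ k) ^ (n + 1) ≤ (Real.exp 1 * P.card) ^ (n + 1) := by
    refine h1.trans ((mul_le_mul_of_nonneg_right hX (by positivity)).trans ?_)
    have h4 : A * (P.card : ℝ) * (P.card : ℝ) ^ n = A * (P.card : ℝ) ^ (n + 1) := by ring
    rw [h4, mul_pow]
    refine mul_le_mul_of_nonneg_right ?_ (by positivity)
    rw [← Real.exp_nat_mul, mul_one]
    refine hA.trans (Real.exp_le_exp.2 ?_)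
    push_cast
    linarith
  exact le_of_pow_le_pow_left₀ (Nat.succ_ne_zero n) (by positivity) h3

open Classical in
/-- **P4** from P1, P2, P3 and `AB_card` -/
theorem sharp_maps
    (hP1 : ∀ w : ℕ, 2 ≤ w → ∃ H₀ : ℕ, ∀ H : ℕ, H₀ ≤ H → ∀ a b : ℕ,
      ∑ d ∈ Icc 1 H, ro w (a + d) * ro w (b + d) ≤ 2 * (H * VT w {a, b}))
    (hP2 : ∃ C : ℝ, 1 ≤ C ∧ ∀ z w : ℕ, 3 ≤ z → 3 ≤ w → ∀ a b : ℕ,
      VT w {a, b} ≤ C * Real.log z * Vz w ^ 2 * tau z w ((a : ℤ) - b))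
    (hP3 : ∃ C : ℝ, 1 ≤ C ∧ ∀ z w j : ℕ, 1 ≤ j → j ≤ z → ∃ N₀ : ℕ, ∀ N : ℕ, N₀ ≤ N → ∀ r : ℕ,
      ∑ q ∈ (Icc 1 N).filter Nat.Prime, tau z w ((q : ℤ) - r) ^ j ≤ C * (N / Real.log N))
    (k : ℕ) (hk : 1 ≤ k)
    (hAB : ∀ w : ℕ, ∃ H₀ : ℕ, ∀ H b : ℕ, H₀ ≤ H → 1 / 2 * Vz w * H ≤ (AB w b H).card ∧ ((AB w b H).card : ℝ) ≤ H) :
    ∃ c : ℝ, 0 < c ∧ ∀ (δ : ℝ), 0 < δ → δ ≤ 1 → ∀ w : ℕ, 3 ≤ w → ∃ N₀ : ℕ, ∀ N H : ℕ, N₀ ≤ N → N₀ ≤ H →
    ∀ P ⊆ (Icc 1 N).filter Nat.Prime, δ * (N / Real.log N) ≤ P.card →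
    ∀ b : ℕ → ℕ, (∀ p ∈ P, ∀ q ∈ P, (b p : ℤ) - b q = p - q ∨ (b p : ℤ) - b q = q - p) →
    c * (H / Real.log (Real.log (16 / δ))) ^ k ≤ (((Fintype.piFinset (fun _ : Fin k => Icc 1 H)).filter (fun d =>
      1 / 2 * (1 / 2 * Vz w) ^ k * (P.card : ℝ) ≤ ∑ p ∈ P, ∏ i, ro w (b p + d i))).card : ℝ) := by
  obtain ⟨C2, hC2, hP2⟩ := hP2
  obtain ⟨C3, hC3, hP3⟩ := hP3
  have hk1 : (1 : ℝ) ≤ k := by exact_mod_cast hk
  have hlC3 : 0 ≤ Real.log C3 := Real.log_nonneg hC3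
  obtain ⟨A, hA⟩ : ∃ A : ℝ, A = k * (Real.log C3 + 3) + 3 := ⟨_, rfl⟩
  have hA1 : 1 ≤ A := by rw [hA]; nlinarith
  have hlA : 0 ≤ Real.log A := Real.log_nonneg hA1
  obtain ⟨E, hE⟩ : ∃ E : ℝ, E = Real.exp 1 := ⟨_, rfl⟩
  have hE0 : 0 < E := by rw [hE]; exact Real.exp_pos 1
  refine ⟨1 / (4 * E * (8 * C2 * (Real.log A + 1)) ^ k), by positivity, fun δ hδ hδ1 w hw => ?_⟩
  -- the parameters
  obtain ⟨n, hn⟩ : ∃ n : ℕ, n = ⌈Real.log (C3 / δ)⌉₊ := ⟨_, rfl⟩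
  obtain ⟨z, hz⟩ : ∃ z : ℕ, z = k * (n + 1) + 3 := ⟨_, rfl⟩
  obtain ⟨L, hL⟩ : ∃ L : ℝ, L = Real.log (Real.log (16 / δ)) := ⟨_, rfl⟩
  have hC3δ : 1 ≤ C3 / δ := by rw [le_div_iff₀ hδ]; linarith
  have hx : Real.exp 1 ≤ Real.log (16 / δ) := by
    have h1 : Real.log 16 ≤ Real.log (16 / δ) :=
      Real.log_le_log (by norm_num) (by rw [le_div_iff₀ hδ]; linarith)
    have h2 : Real.log 16 = 4 * Real.log 2 := by
      rw [show (16 : ℝ) = 2 ^ 4 by norm_num, Real.log_pow]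
      norm_num
    have h3 := Real.log_two_gt_d9
    have h4 := Real.exp_one_lt_d9
    linarith
  have hL1 : 1 ≤ L := by
    rw [hL, ← Real.log_exp 1]
    exact Real.log_le_log (Real.exp_pos 1) hx
  have hx1 : 1 ≤ Real.log (16 / δ) := by
    have := Real.add_one_le_exp (1 : ℝ)
    linarith
  have hn1 : Real.log (C3 / δ) ≤ n := by rw [hn]; exact Nat.le_ceil _
  have hn2 : (n : ℝ) ≤ Real.log (C3 / δ) + 1 := by
    rw [hn]
    exact (Nat.ceil_lt_add_one (Real.log_nonneg hC3δ)).le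
  have hlz : Real.log z ≤ (Real.log A + 1) * L := by
    have h1 : (z : ℝ) ≤ A * Real.log (16 / δ) := by
      have h2 : Real.log (C3 / δ) ≤ Real.log C3 + Real.log (16 / δ) := by
        rw [← Real.log_mul (by positivity) (by positivity)]
        refine Real.log_le_log (by positivity) ?_
        have : C3 * (16 / δ) = 16 * (C3 / δ) := by ring
        rw [this]
        linarith
      have h3 : (z : ℝ) = k * (n + 1) + 3 := by rw [hz]; push_cast; ring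
      rw [h3, hA]
      have h4 : (n : ℝ) + 1 ≤ (Real.log C3 + 3) * Real.log (16 / δ) := by nlinarith
      have h5 := mul_le_mul_of_nonneg_left h4 (by linarith : (0 : ℝ) ≤ k)
      nlinarith
    have hz0 : (0 : ℝ) < z := by exact_mod_cast (by omega : 0 < z)
    calc Real.log z ≤ Real.log (A * Real.log (16 / δ)) := Real.log_le_log hz0 h1
      _ = Real.log A + L := by rw [Real.log_mul (by positivity) (by linarith), hL]
      _ ≤ (Real.log A + 1) * L := by nlinarith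
  have hlz0 : 0 < Real.log z := Real.log_pos (by exact_mod_cast (by omega : 1 < z))
  obtain ⟨H₁, hH₁⟩ := hP1 w (by omega)
  obtain ⟨N₁, hN₁⟩ := hP3 z w (k * (n + 1)) (Nat.mul_pos hk (Nat.succ_pos n)) (by omega)
  obtain ⟨H₂, hH₂⟩ := hAB w
  refine ⟨H₁ + N₁ + H₂ + 3, fun N H hN hH P hP hPc b hb => ?_⟩
  have hV := p4_Vz w
  have hH0 : (0 : ℝ) < H := by exact_mod_cast (by omega : 0 < H)
  have hN3 : (3 : ℝ) ≤ N := by exact_mod_cast (by omega : 3 ≤ N)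
  have hlN : 0 < Real.log N := Real.log_pos (by linarith)
  have hPpos : (0 : ℝ) < P.card := lt_of_lt_of_le (by positivity) hPc
  -- the moments
  have hro := ro_nonneg
  obtain ⟨D, hD⟩ : ∃ D, D = Fintype.piFinset (fun _ : Fin k => Icc 1 H) := ⟨_, rfl⟩
  have hDc : (D.card : ℝ) = (H : ℝ) ^ k := by
    rw [hD, Fintype.card_piFinset_const, Nat.card_Icc, Nat.add_sub_cancel]
    push_cast
    rfl
  have hprod : ∀ f : ℕ → ℝ, ∑ d ∈ D, ∏ i, f (d i) = (∑ t ∈ Icc 1 H, f t) ^ k := by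
    intro f
    rw [hD, ← Finset.prod_univ_sum (fun _ : Fin k => Icc 1 H) (fun _ t => f t), prod_const, card_univ, Fintype.card_fin]
  rw [← hD]
  obtain ⟨m, hm⟩ : ∃ m : ℝ, m = (1 / 2 * Vz w) ^ k * (P.card : ℝ) := ⟨_, rfl⟩
  have hm0 : 0 ≤ m := by rw [hm]; positivity
  have hmm : 1 / 2 * (1 / 2 * Vz w) ^ k * (P.card : ℝ) = 1 / 2 * m := by rw [hm]; ring
  rw [hmm]
  have h1 : (D.card : ℝ) * m ≤ ∑ d ∈ D, ∑ p ∈ P, ∏ i, ro w (b p + d i) := by
    rw [sum_comm, hDc, hm]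
    have h2 : ∀ p ∈ P, (1 / 2 * Vz w * H) ^ k ≤ ∑ d ∈ D, ∏ i, ro w (b p + d i) := by
      intro p _
      rw [hprod (fun t => ro w (b p + t)), p4_ro]
      exact pow_le_pow_left₀ (by positivity) (hH₂ H (b p) (by omega)).1 k
    refine le_trans (le_of_eq ?_) (sum_le_sum h2)
    rw [sum_const, nsmul_eq_mul, mul_pow _ (H : ℝ) k]
    ring
  have h2 := p4_second D (fun d => ∑ p ∈ P, ∏ i, ro w (b p + d i)) m hm0 h1
  obtain ⟨G, hG⟩ : ∃ G : ℝ, G = ((D.filter (fun d => 1 / 2 * m ≤ ∑ p ∈ P, ∏ i, ro w (b p + d i))).card : ℝ) := ⟨_, rfl⟩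
  rw [← hG]
  have h2 : ((D.card : ℝ) * m) ^ 2 / 4 ≤ G * ∑ d ∈ D, (∑ p ∈ P, ∏ i, ro w (b p + d i)) ^ 2 := by
    rw [hG]; exact h2
  have hG0 : 0 ≤ G := by rw [hG]; exact Nat.cast_nonneg _
  obtain ⟨Y, hY⟩ : ∃ Y : ℝ, Y = 2 * C2 * Real.log z := ⟨_, rfl⟩
  have hY0 : 0 < Y := by rw [hY]; positivity
  have h3 : ∑ d ∈ D, (∑ p ∈ P, ∏ i, ro w (b p + d i)) ^ 2 ≤ (Y * Vz w ^ 2 * H) ^ k * (E * (P.card : ℝ) ^ 2) := by
    have e1 : ∑ d ∈ D, (∑ p ∈ P, ∏ i, ro w (b p + d i)) ^ 2 =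
        ∑ p ∈ P, ∑ p' ∈ P, (∑ t ∈ Icc 1 H, ro w (b p + t) * ro w (b p' + t)) ^ k := by
      have e2 : ∀ d ∈ D, (∑ p ∈ P, ∏ i, ro w (b p + d i)) ^ 2 =
          ∑ p ∈ P, ∑ p' ∈ P, ∏ i, (ro w (b p + d i) * ro w (b p' + d i)) := by
        intro d _
        rw [sq, sum_mul_sum]
        exact sum_congr rfl fun p _ => sum_congr rfl fun p' _ => by rw [prod_mul_distrib]
      rw [sum_congr rfl e2, sum_comm]
      refine sum_congr rfl fun p _ => ?_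
      rw [sum_comm]
      exact sum_congr rfl fun p' _ => hprod (fun t => ro w (b p + t) * ro w (b p' + t))
    rw [e1]
    have e2 : ∀ p ∈ P, ∑ p' ∈ P, (∑ t ∈ Icc 1 H, ro w (b p + t) * ro w (b p' + t)) ^ k ≤
        (Y * Vz w ^ 2 * H) ^ k * (E * P.card) := by
      intro p hp
      have e3 : ∀ p' ∈ P, (∑ t ∈ Icc 1 H, ro w (b p + t) * ro w (b p' + t)) ^ k ≤
          (Y * Vz w ^ 2 * H) ^ k * tau z w ((p' : ℤ) - p) ^ k := by
        intro p' hp'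
        rw [← mul_pow]
        refine pow_le_pow_left₀ (sum_nonneg fun t _ => mul_nonneg (hro _ _) (hro _ _)) ?_ k
        refine (hH₁ H (by omega) (b p) (b p')).trans ?_
        have e4 := hP2 z w (by omega) hw (b p) (b p')
        have e5 : tau z w ((b p : ℤ) - b p') = tau z w ((p' : ℤ) - p) := by
          rcases hb p hp p' hp' with h | h
          · rw [h, ← p4_tau_neg, neg_sub]
          · rw [h]
        rw [e5] at e4
        have e6 := mul_le_mul_of_nonneg_left e4 (by positivity : (0 : ℝ) ≤ 2 * H)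
        rw [hY]
        calc 2 * ((H : ℝ) * VT w {b p, b p'}) = 2 * H * VT w {b p, b p'} := by ring
          _ ≤ _ := e6
          _ = _ := by ring
      refine (sum_le_sum e3).trans ?_
      rw [← mul_sum]
      refine mul_le_mul_of_nonneg_left ?_ (by positivity)
      rw [hE]
      refine p4_pow P (fun p' => tau z w ((p' : ℤ) - p)) (fun p' => by have := p4_tau z w ((p' : ℤ) - p); linarith)
        k n (C3 / δ) ?_ ?_
      · have := Real.exp_le_exp.2 hn1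
        rwa [Real.exp_log (by positivity)] at this
      · have e4 := hN₁ N (by omega) p
        have e5 : ∑ p' ∈ P, tau z w ((p' : ℤ) - p) ^ (k * (n + 1)) ≤
            ∑ q ∈ (Icc 1 N).filter Nat.Prime, tau z w ((q : ℤ) - p) ^ (k * (n + 1)) :=
          sum_le_sum_of_subset_of_nonneg hP fun q _ _ => pow_nonneg (by have := p4_tau z w ((q : ℤ) - p); linarith) _
        refine e5.trans (e4.trans ?_)
        have e6 : (N : ℝ) / Real.log N ≤ P.card / δ := by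
          rw [le_div_iff₀ hδ, mul_comm]
          exact hPc
        calc C3 * (N / Real.log N) ≤ C3 * (P.card / δ) := mul_le_mul_of_nonneg_left e6 (by linarith)
          _ = C3 / δ * P.card := by ring
    refine (sum_le_sum e2).trans (le_of_eq ?_)
    rw [sum_const, nsmul_eq_mul]
    ring
  -- conclusion
  have h4 : ((H : ℝ) ^ k * m) ^ 2 / 4 ≤ G * ((Y * Vz w ^ 2 * H) ^ k * (E * (P.card : ℝ) ^ 2)) := by
    rw [← hDc]
    exact h2.trans (mul_le_mul_of_nonneg_left h3 hG0)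
  have h5 : (H : ℝ) ^ k / (4 * E * (4 * Y) ^ k) ≤ G := by
    rw [div_le_iff₀ (by positivity)]
    have h6 : 0 < (Vz w ^ 2 * H) ^ k * (P.card : ℝ) ^ 2 * (1 / (4 * 4 ^ k)) := by positivity
    refine le_of_mul_le_mul_right ?_ h6
    calc (H : ℝ) ^ k * ((Vz w ^ 2 * H) ^ k * (P.card : ℝ) ^ 2 * (1 / (4 * 4 ^ k))) = ((H : ℝ) ^ k * m) ^ 2 / 4 := by
          have e1 : (1 / 2 * Vz w) ^ k = Vz w ^ k / 2 ^ k := by
            rw [mul_pow, div_pow, one_pow]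
            ring
          have e2 : (Vz w ^ 2 * (H : ℝ)) ^ k = (Vz w ^ k) ^ 2 * (H : ℝ) ^ k := by
            rw [mul_pow, ← pow_mul, ← pow_mul, mul_comm 2 k]
          have e3 : (4 : ℝ) ^ k = (2 ^ k) ^ 2 := by
            rw [← pow_mul, mul_comm, pow_mul]
            norm_num
          rw [hm, e1, e2, e3]
          field_simp
      _ ≤ _ := h4
      _ = G * (4 * E * (4 * Y) ^ k) * ((Vz w ^ 2 * H) ^ k * (P.card : ℝ) ^ 2 * (1 / (4 * 4 ^ k))) := by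
          have h8 : (Y * Vz w ^ 2 * H) ^ k = Y ^ k * (Vz w ^ 2 * H) ^ k := by rw [mul_assoc, mul_pow]
          rw [h8, mul_pow 4 Y k]
          field_simp
  refine le_trans ?_ h5
  rw [← hL, div_pow, one_div_mul_eq_div, div_div]
  have h6 : (4 * Y) ^ k ≤ L ^ k * (8 * C2 * (Real.log A + 1)) ^ k := by
    rw [← mul_pow]
    refine pow_le_pow_left₀ (by positivity) ?_ k
    rw [hY]
    have := mul_le_mul_of_nonneg_left hlz (by positivity : (0 : ℝ) ≤ 8 * C2)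
    linarith
  refine div_le_div_of_nonneg_left (by positivity) (by positivity) ?_
  have h7 := mul_le_mul_of_nonneg_left h6 (by positivity : (0 : ℝ) ≤ 4 * E)
  linarith

end Pool.Agent.J4.H46.GD
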