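import Mathlib
import Pool.Agent.J4.H38.GD.Defs

/-! Pieces SS and SST of project GD (helper38), by helper46: summation over the residue classes. -/

set_option autoImplicit false

namespace Pool.Agent.J4.H38.GD

open Finset Filter
open Pool.Agent.Y822
open Pool.Agent.J4.H38.DV
open Pool.Agent.H373R2.T7 (pz mem_pz)

/-- the sum of `f` over the `m` for which all `c m t`, `t ∈ T`, are rough -/
noncomputable def ssF (c : ℕ → ℕ → ℕ) (f : ℕ → ℝ) (N y : ℕ) (T : Finset ℕ) : ℝ :=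
  ∑ m ∈ Icc 1 N, f m * ∏ t ∈ T, ro y (c m t)

theorem ss_ro_one {z n : ℕ} (h : ∀ p ∈ pz z, ¬ p ∣ n) : ro z n = 1 := by
  unfold ro
  rw [if_pos]
  intro p hp hpz
  exact h p (mem_pz.2 ⟨hpz, hp⟩)

theorem ss_ro_zero {z n p : ℕ} (hp : p ∈ pz z) (h : p ∣ n) : ro z n = 0 := by
  unfold ro
  rw [if_neg]
  intro h1
  exact h1 p (mem_pz.1 hp).2 (mem_pz.1 hp).1 h

/-- the reduced residues -/
def ssR (w : ℕ) : Finset ℕ := (range (∏ p ∈ pz w, p)).filter (fun r => ∀ p ∈ pz w, ¬ p ∣ r)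

theorem ss_tot (S : Finset ℕ) (hS : ∀ p ∈ S, p.Prime) :
    ((Nat.totient (∏ p ∈ S, p) : ℕ) : ℝ) = ∏ p ∈ S, ((p : ℝ) - 1) := by
  classical
  induction S using Finset.induction_on with
  | empty => simp
  | insert q S hq ih =>
    have hqp := hS q (mem_insert_self _ _)
    have hS' : ∀ p ∈ S, p.Prime := fun p hp => hS p (mem_insert_of_mem hp)
    rw [prod_insert hq, prod_insert hq, Nat.totient_mul, Nat.totient_prime hqp, Nat.cast_mul, ih hS',
      Nat.cast_sub hqp.one_le, Nat.cast_one]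
    refine Nat.Coprime.prod_right fun p hp => ?_
    exact (Nat.coprime_primes hqp (hS' p hp)).2 (fun e => hq (e ▸ hp))

theorem ss_card (w : ℕ) : ((ssR w).card : ℝ) = phW w := by
  have hP : ∀ p ∈ pz w, p.Prime := fun p hp => (mem_pz.1 hp).2
  unfold phW
  rw [← ss_tot (pz w) hP, Nat.totient_eq_card_coprime]
  congr 2
  unfold ssR
  refine filter_congr fun r _ => ?_
  rw [Nat.coprime_prod_left_iff]
  exact forall₂_congr fun p hp => ((hP p hp).coprime_iff_not_dvd).symm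

theorem ss_pos (w : ℕ) : 0 < phW w := by
  unfold phW
  refine prod_pos fun p hp => ?_
  have : (2 : ℝ) ≤ p := by exact_mod_cast (mem_pz.1 hp).2.two_le
  linarith

open Classical in
/-- the part of `f` in a residue class -/
noncomputable def ssf (w r : ℕ) (f : ℕ → ℝ) (m : ℕ) : ℝ := if ∀ p ∈ pz w, m ≡ r [MOD p] then f m else 0

theorem ss_split (w : ℕ) (f : ℕ → ℝ) (hfw : ∀ m, f m ≠ 0 → ∀ p ∈ pz w, ¬ p ∣ m) (m : ℕ) :
    f m = ∑ r ∈ ssR w, ssf w r f m := by
  classical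
  have hP : ∀ p ∈ pz w, p.Prime := fun p hp => (mem_pz.1 hp).2
  have hW : 0 < ∏ p ∈ pz w, p := prod_pos fun p hp => (hP p hp).pos
  by_cases hm : f m = 0
  · rw [hm]
    symm
    refine sum_eq_zero fun r _ => ?_
    unfold ssf
    rw [hm]; simp
  · have h1 := hfw m hm
    set W := ∏ p ∈ pz w, p with hWd
    have hmod : ∀ p ∈ pz w, m ≡ m % W [MOD p] := by
      intro p hp
      have : p ∣ W := dvd_prod_of_mem _ hp
      exact ((Nat.mod_modEq m W).of_dvd this).symm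
    have hmem : m % W ∈ ssR w := by
      unfold ssR
      rw [mem_filter, mem_range]
      refine ⟨Nat.mod_lt _ hW, fun p hp hd => h1 p hp ?_⟩
      exact ((hmod p hp).dvd_iff dvd_rfl).2 hd
    rw [sum_eq_single (m % W)]
    · unfold ssf
      rw [if_pos hmod]
    · intro r hr hne
      unfold ssf
      rw [if_neg]
      intro hc
      apply hne
      unfold ssR at hr
      rw [mem_filter, mem_range] at hr
      -- r and m % W are congruent mod all p, hence mod W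
      have h2 : ∀ p ∈ pz w, r ≡ m % W [MOD p] := fun p hp => (hc p hp).symm.trans (hmod p hp)
      have h3 : r ≡ m % W [MOD W] := by
        rw [Nat.modEq_iff_dvd]
        have h4 : ∀ p ∈ pz w, ((p : ℕ) : ℤ) ∣ ((m % W : ℕ) : ℤ) - (r : ℤ) := fun p hp => Nat.modEq_iff_dvd.1 (h2 p hp)
        have h5 : (((∏ p ∈ pz w, p : ℕ)) : ℤ) = ∏ p ∈ pz w, (p : ℤ) := by push_cast; rfl
        rw [hWd, h5]
        refine Finset.prod_dvd_of_coprime ?_ h4
        intro p hp q hq hpq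
        exact Nat.isCoprime_iff_coprime.2 ((Nat.coprime_primes (hP p hp) (hP q hq)).2 hpq)
      exact Nat.ModEq.eq_of_lt_of_lt h3 hr.1 (Nat.mod_lt _ hW)
    · intro h; exact absurd hmem h

/-- the general form -/
theorem ss_gen (k w y N H : ℕ) (hwy : w ≤ y) (G E : ℝ) (c : ℕ → ℕ → ℕ) (bb : ℕ → ℕ) (f : ℕ → ℝ)
    (hf : ∀ m, 0 ≤ f m ∧ f m ≤ ArithmeticFunction.vonMangoldt m) (hfw : ∀ m, f m ≠ 0 → ∀ p ∈ pz w, ¬ p ∣ m)
    (hc : ∀ r m t, m ∈ Icc 1 N → (∀ p ∈ pz w, m ≡ r [MOD p]) → ∀ p ∈ pz w, (p ∣ c m t ↔ p ∣ t + bb r))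
    (h : ∀ r : ℕ, (∀ p ∈ pz w, ¬ p ∣ r) → ∀ g : ℕ → ℝ, (∀ m, 0 ≤ g m ∧ g m ≤ muR w r m) →
      ∑ D ∈ (AB w (bb r) H).powersetCard k, |ssF c g N y D - G ^ k * ssF c g N y ∅| ≤ E / phW w) :
    ∑ D ∈ (Icc 1 H).powersetCard k, |ssF c f N y D - G ^ k * ssF c f N w D| ≤ E := by
  classical
  have hsub : ∀ p ∈ pz w, p ∈ pz y := fun p hp => mem_pz.2 ⟨(mem_pz.1 hp).1.trans hwy, (mem_pz.1 hp).2⟩
  have hsum : ∀ z D, ssF c f N z D = ∑ r ∈ ssR w, ssF c (ssf w r f) N z D := by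
    intro z D
    unfold ssF
    rw [sum_comm]
    refine sum_congr rfl fun m _ => ?_
    rw [← sum_mul, ← ss_split w f hfw m]
  have h1 : ∀ D ∈ (Icc 1 H).powersetCard k, |ssF c f N y D - G ^ k * ssF c f N w D| ≤
      ∑ r ∈ ssR w, |ssF c (ssf w r f) N y D - G ^ k * ssF c (ssf w r f) N w D| := by
    intro D _
    rw [hsum y D, hsum w D, mul_sum, ← sum_sub_distrib]
    exact abs_sum_le_sum_abs _ _
  refine (sum_le_sum h1).trans ?_
  rw [sum_comm]
  have h2 : ∀ r ∈ ssR w, ∑ D ∈ (Icc 1 H).powersetCard k,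
      |ssF c (ssf w r f) N y D - G ^ k * ssF c (ssf w r f) N w D| ≤ E / phW w := by
    intro r hr
    have hr' : ∀ p ∈ pz w, ¬ p ∣ r := by
      unfold ssR at hr
      exact (mem_filter.1 hr).2
    refine le_trans (le_of_eq ?_) (h r hr' (ssf w r f) (fun m => ?_))
    · have hsubset : (AB w (bb r) H).powersetCard k ⊆ (Icc 1 H).powersetCard k := by
        refine powersetCard_mono ?_
        unfold AB
        exact filter_subset _ _
      rw [← sum_subset hsubset]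
      · refine sum_congr rfl fun D hD => ?_
        have hDA := (mem_powersetCard.1 hD).1
        have e1 : ssF c (ssf w r f) N w D = ssF c (ssf w r f) N y ∅ := by
          unfold ssF
          refine sum_congr rfl fun m hm => ?_
          by_cases hcl : ∀ p ∈ pz w, m ≡ r [MOD p]
          · rw [prod_empty]
            congr 1
            refine prod_eq_one fun t ht => ?_
            refine ss_ro_one fun p hp hd => ?_
            have h3 := (hc r m t hm hcl p hp).1 hd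
            have h4 := hDA ht
            unfold AB at h4
            exact (mem_filter.1 h4).2 p hp h3
          · unfold ssf
            rw [if_neg hcl, zero_mul, zero_mul]
        rw [e1]
      · intro D hD hD2
        have hD1 := mem_powersetCard.1 hD
        have h3 : ¬ D ⊆ AB w (bb r) H := fun hh => hD2 (mem_powersetCard.2 ⟨hh, hD1.2⟩)
        rw [not_subset] at h3
        obtain ⟨t, ht, ht2⟩ := h3
        have h4 : ∃ p ∈ pz w, p ∣ t + bb r := by
          by_contra hno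
          push Not at hno
          apply ht2
          unfold AB
          exact mem_filter.2 ⟨hD1.1 ht, hno⟩
        obtain ⟨p, hp, hd⟩ := h4
        have e1 : ∀ z, p ∈ pz z → ssF c (ssf w r f) N z D = 0 := by
          intro z hz
          unfold ssF
          refine sum_eq_zero fun m hm => ?_
          by_cases hcl : ∀ p ∈ pz w, m ≡ r [MOD p]
          · have h5 := (hc r m t hm hcl p hp).2 hd
            have h6 : ∏ t ∈ D, ro z (c m t) = 0 := prod_eq_zero ht (ss_ro_zero hz h5)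
            rw [h6, mul_zero]
          · unfold ssf
            rw [if_neg hcl, zero_mul]
        rw [e1 y (hsub p hp), e1 w hp, mul_zero, sub_zero, abs_zero]
    · unfold ssf muR
      split_ifs
      · exact hf m
      · exact ⟨le_rfl, le_rfl⟩
  refine (sum_le_sum h2).trans (le_of_eq ?_)
  rw [sum_const, nsmul_eq_mul, ss_card, mul_div_cancel₀ _ (ss_pos w).ne']

/-- **SS** -/
theorem sumR (k w y N H : ℕ) (_hw : 2 ≤ w) (hwy : w ≤ y) (G E : ℝ) (_hE : 0 ≤ E) (f : ℕ → ℝ)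
    (hf : ∀ m, 0 ≤ f m ∧ f m ≤ ArithmeticFunction.vonMangoldt m) (hfw : ∀ m, f m ≠ 0 → ∀ p ∈ pz w, ¬ p ∣ m)
    (h : ∀ r : ℕ, (∀ p ∈ pz w, ¬ p ∣ r) → ∀ g : ℕ → ℝ, (∀ m, 0 ≤ g m ∧ g m ≤ muR w r m) →
      ∑ D ∈ (AB w (bG w r N) H).powersetCard k, |Fs g N y D - G ^ k * Fs g N y ∅| ≤ E / phW w) :
    ∑ D ∈ (Icc 1 H).powersetCard k, |Fs f N y D - G ^ k * Fs f N w D| ≤ E := by
  refine ss_gen k w y N H hwy G E (fun m t => N - m + t) (fun r => bG w r N) f hf hfw ?_ h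
  intro r m t hm hcl p hp
  have hmN := (mem_Icc.1 hm).2
  have hpW : p ∣ ∏ p ∈ pz w, p := dvd_prod_of_mem _ hp
  have hW : 1 ≤ ∏ p ∈ pz w, p := Nat.one_le_iff_ne_zero.2
    (prod_ne_zero_iff.2 fun q hq => (mem_pz.1 hq).2.ne_zero)
  have h1 : ((p : ℕ) : ℤ) ∣ (r : ℤ) - m := Nat.modEq_iff_dvd.1 (hcl p hp)
  have h2 : ((p : ℕ) : ℤ) ∣ ((∏ p ∈ pz w, p : ℕ) : ℤ) := Int.natCast_dvd_natCast.2 hpW
  unfold bG
  rw [← Int.natCast_dvd_natCast, ← Int.natCast_dvd_natCast (n := t + _)]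
  set W := ∏ p ∈ pz w, p with hWd
  have e1 : ((N - m + t : ℕ) : ℤ) = N - m + t := by rw [Nat.cast_add, Nat.cast_sub hmN]
  have e2 : ((t + (N + (W - 1) * r) : ℕ) : ℤ) = t + (N + ((W : ℤ) - 1) * r) := by
    rw [Nat.cast_add, Nat.cast_add, Nat.cast_mul, Nat.cast_sub hW, Nat.cast_one]
  rw [e1, e2]
  have e3 : (t : ℤ) + (N + ((W : ℤ) - 1) * r) = (N - m + t) + (W * r - (r - m)) := by ring
  rw [e3]
  exact (dvd_add_left (dvd_sub (h2.mul_right _) h1)).symm

/-- **SST** -/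
theorem sumRT (k w y N H : ℕ) (_hw : 2 ≤ w) (hwy : w ≤ y) (G E : ℝ) (_hE : 0 ≤ E) (f : ℕ → ℝ)
    (hf : ∀ m, 0 ≤ f m ∧ f m ≤ ArithmeticFunction.vonMangoldt m) (hfw : ∀ m, f m ≠ 0 → ∀ p ∈ pz w, ¬ p ∣ m)
    (h : ∀ r : ℕ, (∀ p ∈ pz w, ¬ p ∣ r) → ∀ g : ℕ → ℝ, (∀ m, 0 ≤ g m ∧ g m ≤ muR w r m) →
      ∑ D ∈ (AB w r H).powersetCard k, |Ft g N y D - G ^ k * Ft g N y ∅| ≤ E / phW w) :
    ∑ D ∈ (Icc 1 H).powersetCard k, |Ft f N y D - G ^ k * Ft f N w D| ≤ E := by
  refine ss_gen k w y N H hwy G E (fun m t => m + t) (fun r => r) f hf hfw ?_ h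
  intro r m t _ hcl p hp
  have h1 : m + t ≡ t + r [MOD p] := by
    rw [add_comm t r]
    exact (hcl p hp).add_right t
  exact h1.dvd_iff dvd_rfl

end Pool.Agent.J4.H38.GD
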